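import Pool.Agent.H50.LT.Main

/-!
MP_b311ff_nt, Q1 (E. Lehmer): `Ω(a,b)` is finite for every pair `0 < a < b` that is not exceptional.
-/

set_option autoImplicit false

namespace Pool.Agent.Results.MP_b311ff_nt.LehmerTriples

/-- `r` is a quadratic residue of `p`: `r` is not divisible by `p` and is congruent to a square -/
def IsQR (p r : ℕ) : Prop := ¬ p ∣ r ∧ ∃ x : ℕ, x ^ 2 ≡ r [MOD p]

/-- the property of `N` in the definition of `Ω(a,b)`: for some `p₀`, for every prime `p > p₀` some `r`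
with `1 ≤ r ≤ N` makes `r`, `r + a`, `r + b` quadratic residues of `p` -/
def Works (a b N : ℕ) : Prop := ∃ p₀ : ℕ, ∀ p : ℕ, p.Prime → p₀ < p →
  ∃ r : ℕ, 1 ≤ r ∧ r ≤ N ∧ IsQR p r ∧ IsQR p (r + a) ∧ IsQR p (r + b)

open scoped Classical in
/-- `Ω(a,b)`, the least positive `N` with the property, `⊤` if there is none -/
noncomputable def Omega (a b : ℕ) : ℕ∞ :=
  if h : ∃ N : ℕ, 0 < N ∧ Works a b N then (Nat.find h : ℕ∞) else ⊤

/-- the unordered pair of the residues of `a` and `b` modulo `m` is `{i, j}` -/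
def Pair (m a b i j : ℕ) : Prop := (a % m = i ∧ b % m = j) ∨ (a % m = j ∧ b % m = i)

/-- the exceptional pairs -/
def Exceptional (a b : ℕ) : Prop :=
  Pair 3 a b 1 2 ∨ (Pair 5 a b 1 3 ∨ Pair 5 a b 2 3 ∨ Pair 5 a b 2 4) ∨
    (Pair 7 a b 1 5 ∨ Pair 7 a b 2 3 ∨ Pair 7 a b 4 6)

/-- `Ω(a,b) < ∞` for every pair `0 < a < b` that is not exceptional -/
theorem result : ∀ a b : ℕ, 0 < a → a < b → ¬ Exceptional a b → Omega a b < ⊤ := by
  intro a b ha hab hE
  have hE' : ¬ Pool.Agent.Y872.L.Exc a b := by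
    intro h
    apply hE
    unfold Pool.Agent.Y872.L.Exc at h
    simp only [Finset.mem_insert, Finset.mem_singleton, Prod.mk.injEq] at h
    unfold Exceptional Pair
    rcases h with (h | h) | (h | h | h | h | h | h) | (h | h | h | h | h | h)
    · exact Or.inl (Or.inl h)
    · exact Or.inl (Or.inr h)
    · exact Or.inr (Or.inl (Or.inl (Or.inl h)))
    · exact Or.inr (Or.inl (Or.inl (Or.inr h)))
    · exact Or.inr (Or.inl (Or.inr (Or.inl (Or.inl h))))
    · exact Or.inr (Or.inl (Or.inr (Or.inl (Or.inr h))))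
    · exact Or.inr (Or.inl (Or.inr (Or.inr (Or.inl h))))
    · exact Or.inr (Or.inl (Or.inr (Or.inr (Or.inr h))))
    · exact Or.inr (Or.inr (Or.inl (Or.inl h)))
    · exact Or.inr (Or.inr (Or.inl (Or.inr h)))
    · exact Or.inr (Or.inr (Or.inr (Or.inl (Or.inl h))))
    · exact Or.inr (Or.inr (Or.inr (Or.inl (Or.inr h))))
    · exact Or.inr (Or.inr (Or.inr (Or.inr (Or.inl h))))
    · exact Or.inr (Or.inr (Or.inr (Or.inr (Or.inr h))))
  obtain ⟨N, p₀, h⟩ := Pool.Agent.H50.LT.threshold ha hab hE'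
  have hN : ∃ N : ℕ, 0 < N ∧ Works a b N :=
    ⟨N + 1, N.succ_pos, p₀, fun p hp hpp => by
      obtain ⟨r, h1, h2, h3, h4, h5⟩ := h p hp hpp
      exact ⟨r, h1, h2.trans N.le_succ, h3, h4, h5⟩⟩
  unfold Omega
  rw [dif_pos hN]
  exact ENat.natCast_lt_top _

end Pool.Agent.Results.MP_b311ff_nt.LehmerTriples
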